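import Pool.Agent.TH893.GS.Main

/-!
# The Gaussian law for the sums of the Möbius function over almost all sparse sets of shifts

The question is about the sums `M(x; H)` of `μ` over all the integers of a window of length `H`, `X^ε < H < X^(1-ε)`,
normalised by `√(H / ζ(2))`. Here the whole window is replaced by `k` of its elements: for almost all `k`-tuples
`h 1, ..., h k` of integers of the window `[1, H]` the sum `μ(n + h 1) + ... + μ(n + h k)`, normalised by `√(k / ζ(2))`,
is asymptotically normal, for `k` large, `H` large in terms of `k`, uniformly in `N ≥ H` (so for windows of bounded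
length, of length `N ^ θ`, ...). The law of `n` may be the uniform one on `(Y, X]`, or on the part in `(Y, X]` of any
set `E` of integers which is given before the tuple of shifts, as long as this part has at least `ε N` elements
(convergence in the mixing sense of Rényi).
-/

set_option autoImplicit false

open Finset

namespace Pool.Agent.Results.MP_4f18df_nt.RandomSubsets

/-- the part of `E` in `(Y, X]` -/
def part (E : Set ℕ) (Y X : ℕ) : Set ℕ := {n | n ∈ E ∧ Y < n ∧ n ≤ X}

/-- `μ(n + h 1) + ... + μ(n + h k)` -/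
noncomputable def S {k : ℕ} (h : Fin k → ℕ) (n : ℕ) : ℝ :=
  ∑ i, ((ArithmeticFunction.moebius (n + h i) : ℤ) : ℝ)

/-- the standard normal distribution function -/
noncomputable def Normal (x : ℝ) : ℝ := (√(2 * Real.pi))⁻¹ * ∫ u in Set.Iic x, Real.exp (-u ^ 2 / 2)

/-- For `n` uniformly distributed in the part of `E` in `(Y, X]` the distribution function of
`S h n / √(k / ζ(2))` is within `ε` of the normal one, whenever this part has at least `ε N` elements and `X ≤ N`. -/
def Gaussian (ε : ℝ) {k : ℕ} (N : ℕ) (E : Set ℕ) (h : Fin k → ℕ) : Prop :=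
  ∀ Y X : ℕ, Y ≤ X → X ≤ N → ε * N ≤ (part E Y X).ncard → ∀ x : ℝ,
    |(({n : ℕ | n ∈ part E Y X ∧ S h n ≤ x * √(6 / Real.pi ^ 2 * k)}.ncard : ℝ) / (part E Y X).ncard) - Normal x| ≤ ε

/-- **The Gaussian law for almost all tuples of shifts.** -/
theorem result (ε : ℝ) (hε : 0 < ε) : ∃ k₀ : ℕ, ∀ k : ℕ, k₀ ≤ k → ∃ H₀ : ℕ, ∀ H N : ℕ, H₀ ≤ H → H ≤ N →
    ∀ E : Set ℕ, ({h : Fin k → ℕ | (∀ i, 1 ≤ h i ∧ h i ≤ H) ∧ ¬ Gaussian ε N E h}.ncard : ℝ) ≤ ε * (H : ℝ) ^ k := by
  classical
  obtain ⟨k₀, h0⟩ := Pool.Agent.TH893.GS.main hε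
  refine ⟨k₀ + 1, fun k hk => ?_⟩
  obtain ⟨H₀, h1⟩ := h0 k (by omega)
  refine ⟨H₀, fun H N hH hHN E => ?_⟩
  have h2 := h1 N H hH hHN E
  refine le_trans ?_ h2
  have hk0 : (0 : ℝ) < k := by exact_mod_cast (by omega : 0 < k)
  have hs0 : 0 < √(6 / Real.pi ^ 2 * (k : ℝ)) := Real.sqrt_pos.2 (by positivity)
  have hpart : ∀ Y X : ℕ, part E Y X = (((Ioc Y X).filter (· ∈ E) : Finset ℕ) : Set ℕ) := by
    intro Y X
    ext n
    simp only [part, Set.mem_setOf_eq, coe_filter, mem_Ioc]
    tauto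
  refine Nat.cast_le.2 ?_
  rw [← Set.ncard_coe_finset]
  apply Set.ncard_le_ncard _ (Finset.finite_toSet _)
  intro h hh
  rw [Set.mem_setOf_eq] at hh
  rw [mem_coe, mem_filter]
  refine ⟨?_, fun hcon => hh.2 ?_⟩
  · unfold Pool.Agent.TH893.GS.tup
    rw [Fintype.mem_piFinset]
    intro i
    rw [mem_Icc]
    exact hh.1 i
  · intro Y X hYX hX hF x
    rw [hpart, Set.ncard_coe_finset] at hF
    have h3 := hcon Y X hYX hX hF x
    rw [hpart, Set.ncard_coe_finset]
    have h4 : {n : ℕ | n ∈ (((Ioc Y X).filter (· ∈ E) : Finset ℕ) : Set ℕ) ∧ S h n ≤ x * √(6 / Real.pi ^ 2 * k)} =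
        ((((Ioc Y X).filter (· ∈ E)).filter
          (fun n => Pool.Agent.TH893.GS.TT h n / √(Pool.Agent.TH893.GS.c0 * k) ≤ x) : Finset ℕ) : Set ℕ) := by
      ext n
      rw [Set.mem_setOf_eq, mem_coe, mem_coe, mem_filter (s := (Ioc Y X).filter (· ∈ E))]
      have e : S h n ≤ x * √(6 / Real.pi ^ 2 * k) ↔
          Pool.Agent.TH893.GS.TT h n / √(Pool.Agent.TH893.GS.c0 * k) ≤ x := by
        unfold Pool.Agent.TH893.GS.c0
        rw [div_le_iff₀ hs0]
        exact Iff.rfl
      rw [e]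
    rw [h4, Set.ncard_coe_finset]
    unfold Normal
    rw [← Pool.Agent.TH893.GS.Phi_eq]
    exact h3

end Pool.Agent.Results.MP_4f18df_nt.RandomSubsets
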